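import Pool.Agent.W503.TCF.Pairs

/-!
# Close pairs of ordinates of zeta zeros, on the Riemann hypothesis, from triple correlation

Assume the Riemann hypothesis.  For `a > 0` with `B a = 53/60 - 79/600 π² a² > 0` and
`D a = 2 (B a)² - 1037/1000 ≥ 1/8`, the number `N*(T, a)` of ordered pairs of ordinates
`(γ, γ')` with `0 < γ ≤ T` and `0 < γ - γ' ≤ 2πa / log T` is at most
`(1/2) (v / (v + (D a)²) + o(1)) (T / 2π) log T` with `v = 151/1250`.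
-/

open Filter Topology Complex

namespace Pool.Agent.Results.MP_f58427_nt.ClosePairsTriple

/-- the nontrivial zeros of zeta -/
def zeros : Set ℂ := {s : ℂ | riemannZeta s = 0 ∧ 0 < s.re ∧ s.re < 1}

/-- the multiplicity of a zero -/
noncomputable def mult (s : ℂ) : ℕ := analyticOrderNatAt riemannZeta s

/-- `N*(T, a)`: the number of ordered pairs `(γ, γ')` of ordinates of nontrivial zeros, counted
with multiplicity, with `0 < γ ≤ T` and `0 < γ - γ' ≤ 2πa / log T` -/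
noncomputable def Nstar (T a : ℝ) : ℕ :=
  ∑ᶠ s ∈ {s : ℂ | s ∈ zeros ∧ 0 < s.im ∧ s.im ≤ T}, ∑ᶠ s' ∈ {s' : ℂ | s' ∈ zeros ∧
    0 < s.im - s'.im ∧ s.im - s'.im ≤ 2 * Real.pi * a / Real.log T}, mult s * mult s'

/-- the base of the square in the kernel bound -/
noncomputable def B (a : ℝ) : ℝ := 53 / 60 - 79 / 600 * Real.pi ^ 2 * a ^ 2

/-- the gap `D a = 2 (B a)² - 1037/1000` -/
noncomputable def D (a : ℝ) : ℝ := 2 * B a ^ 2 - 1037 / 1000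

lemma zeros_eq (T : ℝ) : {s : ℂ | s ∈ zeros ∧ 0 < s.im ∧ s.im ≤ T} =
    ((H343.ZSide.Z0 T : Finset ℂ) : Set ℂ) := by
  ext s
  rw [Finset.mem_coe, TC.GlobAux.mem_Z0]
  simp only [zeros, Set.mem_ofPred_eq]
  tauto

/-- the outer sets of zeros that are summed over are finite -/
theorem zeros_finite (T : ℝ) : {s : ℂ | s ∈ zeros ∧ 0 < s.im ∧ s.im ≤ T}.Finite := by
  rw [zeros_eq]
  exact Finset.finite_toSet _

/-- the smallest positive ordinates are bounded below -/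
lemma low : ∃ η : ℝ, 0 < η ∧ ∀ s ∈ zeros, 0 < s.im → η ≤ s.im := by
  classical
  rcases (H343.ZSide.Z0 1).eq_empty_or_nonempty with h | h
  · refine ⟨1, one_pos, fun s hs hs0 => ?_⟩
    by_contra hcon
    push Not at hcon
    have : s ∈ H343.ZSide.Z0 1 := by
      rw [TC.GlobAux.mem_Z0]
      exact ⟨hs.2.1, hs.2.2, hs0, hcon.le, hs.1⟩
    rw [h] at this
    exact absurd this (Finset.notMem_empty s)
  · obtain ⟨s0, hs0, hmin⟩ := Finset.exists_min_image _ Complex.im h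
    have h0 := hs0
    rw [TC.GlobAux.mem_Z0] at h0
    refine ⟨s0.im, h0.2.2.1, fun s hs hs1 => ?_⟩
    rcases le_or_gt s.im 1 with h2 | h2
    · apply hmin
      rw [TC.GlobAux.mem_Z0]
      exact ⟨hs.2.1, hs.2.2, hs1, h2, hs.1⟩
    · linarith [h0.2.2.2.1]

/-- the set of the second ordinates: for large `T` they are positive -/
lemma inner_eq {η T a : ℝ} {s : ℂ} (hη : ∀ s ∈ zeros, 0 < s.im → η ≤ s.im)
    (hs : s ∈ zeros) (hs0 : 0 < s.im) (hsT : s.im ≤ T)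
    (hT : 2 * Real.pi * a / Real.log T < η) :
    {s' : ℂ | s' ∈ zeros ∧ 0 < s.im - s'.im ∧ s.im - s'.im ≤ 2 * Real.pi * a / Real.log T} =
    (((H343.ZSide.Z0 T).filter (fun s' => 0 < s.im - s'.im ∧
      s.im - s'.im ≤ 2 * Real.pi * a / Real.log T) : Finset ℂ) : Set ℂ) := by
  ext s'
  rw [Finset.mem_coe, Finset.mem_filter, TC.GlobAux.mem_Z0]
  constructor
  · rintro ⟨h1, h2, h3⟩
    have h4 := hη s hs hs0
    exact ⟨⟨h1.2.1, h1.2.2, by linarith, by linarith, h1.1⟩, h2, h3⟩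
  · rintro ⟨h1, h2, h3⟩
    exact ⟨⟨h1.2.2.2.2, h1.1, h1.2.1⟩, h2, h3⟩

lemma N_eq (hRH : RiemannHypothesis) {η T a : ℝ} (hη : ∀ s ∈ zeros, 0 < s.im → η ≤ s.im)
    (hT : 2 * Real.pi * a / Real.log T < η) :
    Nstar T a = ∑ g ∈ TC.ordT T, ∑ g' ∈ (TC.ordT T).filter (fun g' => 0 < g - g' ∧
        g - g' ≤ 2 * Real.pi * a / Real.log T), TC.mu g * TC.mu g' := by
  classical
  rw [← Pool.Agent.W503.TCF.conv hRH T (fun g g' => 0 < g - g' ∧
        g - g' ≤ 2 * Real.pi * a / Real.log T)]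
  unfold Nstar
  rw [zeros_eq, finsum_mem_coe_finset]
  refine Finset.sum_congr rfl fun s hs => ?_
  rw [TC.GlobAux.mem_Z0] at hs
  rw [inner_eq hη ⟨hs.2.2.2.2, hs.1, hs.2.1⟩ hs.2.2.1 hs.2.2.2.1 hT, finsum_mem_coe_finset]
  rfl

theorem main (hRH : RiemannHypothesis) (a : ℝ) (ha : 0 < a) (h1 : 0 < B a)
    (hD : 1 / 8 ≤ D a) (ε : ℝ) (hε : 0 < ε) : ∃ T₀ : ℝ, ∀ T : ℝ, T₀ ≤ T →
      (Nstar T a : ℝ) ≤ 1 / 2 * (151 / 1250 / (151 / 1250 + D a ^ 2) + ε) *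
        (T / (2 * Real.pi) * Real.log T) := by
  obtain ⟨T₀, hT₀⟩ := Pool.Agent.W503.TCF.pairs_bound hRH a ha.le h1 hD ε hε
  obtain ⟨η, hη0, hη⟩ := low
  have hpi := Real.pi_pos
  have hev : ∀ᶠ T : ℝ in atTop, 2 * Real.pi * a / Real.log T < η :=
    (Real.tendsto_log_atTop.const_div_atTop (2 * Real.pi * a)).eventually (gt_mem_nhds hη0)
  obtain ⟨T₁, hT₁⟩ := eventually_atTop.1 hev
  refine ⟨max T₀ T₁, fun T hT => ?_⟩
  have h2 := hT₀ T ((le_max_left _ _).trans hT)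
  rw [N_eq hRH hη (hT₁ T ((le_max_right _ _).trans hT))]
  exact h2

/-- On the Riemann hypothesis: the upper bound for `N*(T, a)`, and its numerical values for
`a ≤ 1/100`, `a ≤ 1/40` and `a ≤ 1/20`. -/
theorem result (hRH : RiemannHypothesis) :
    (∀ a : ℝ, 0 < a → 0 < B a → 1 / 8 ≤ D a → ∀ ε : ℝ, 0 < ε →
      ∃ T₀ : ℝ, ∀ T : ℝ, T₀ ≤ T → (Nstar T a : ℝ) ≤
        1 / 2 * (151 / 1250 / (151 / 1250 + D a ^ 2) + ε) * (T / (2 * Real.pi) * Real.log T)) ∧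
    (∀ a : ℝ, 0 < a → a ≤ 1 / 100 → ∃ T₀ : ℝ, ∀ T : ℝ, T₀ ≤ T →
      (Nstar T a : ℝ) ≤ 1532 / 10000 * (T / (2 * Real.pi) * Real.log T)) ∧
    (∀ a : ℝ, 0 < a → a ≤ 1 / 40 → ∃ T₀ : ℝ, ∀ T : ℝ, T₀ ≤ T →
      (Nstar T a : ℝ) ≤ 1542 / 10000 * (T / (2 * Real.pi) * Real.log T)) ∧
    (∀ a : ℝ, 0 < a → a ≤ 1 / 20 → ∃ T₀ : ℝ, ∀ T : ℝ, T₀ ≤ T →
      (Nstar T a : ℝ) ≤ 1577 / 10000 * (T / (2 * Real.pi) * Real.log T)) := by
  have hpi := Real.pi_pos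
  have key : ∀ (b c : ℝ), b ≤ 1 / 10 →
      151 / 1250 / (151 / 1250 + (2 * (53 / 60 - 79 / 600 * (98697 / 10000) * b ^ 2) ^ 2 -
        1037 / 1000) ^ 2) < 2 * c →
      1 / 8 ≤ 2 * (53 / 60 - 79 / 600 * (98697 / 10000) * b ^ 2) ^ 2 - 1037 / 1000 →
      ∀ a : ℝ, 0 < a → a ≤ b → ∃ T₀ : ℝ, ∀ T : ℝ, T₀ ≤ T →
      (Nstar T a : ℝ) ≤ c * (T / (2 * Real.pi) * Real.log T) := by
    intro b c hb hc hD a ha hab
    obtain ⟨h1, h2, h3⟩ := Pool.Agent.W503.TCF.num_bound a b _ (2 * c) ha.le hab hb rfl hc hD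
    obtain ⟨T₀, hT₀⟩ := main hRH a ha h1 h2 _ (sub_pos.2 h3)
    refine ⟨max T₀ 1, fun T hT => ?_⟩
    have hT1 : 1 ≤ T := (le_max_right _ _).trans hT
    have hlog : 0 ≤ Real.log T := Real.log_nonneg hT1
    refine (hT₀ T ((le_max_left _ _).trans hT)).trans ?_
    apply mul_le_mul_of_nonneg_right _ (by positivity)
    unfold D B
    linarith
  refine ⟨fun a ha h1 hD ε hε => main hRH a ha h1 hD ε hε, ?_, ?_, ?_⟩
  · exact key (1 / 100) (1532 / 10000) (by norm_num) (by norm_num) (by norm_num)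
  · exact key (1 / 40) (1542 / 10000) (by norm_num) (by norm_num) (by norm_num)
  · exact key (1 / 20) (1577 / 10000) (by norm_num) (by norm_num) (by norm_num)

end Pool.Agent.Results.MP_f58427_nt.ClosePairsTriple
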