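import Pool.Agent.W207.PU.All

/-!
# The lower bound in the pair correlation conjecture implies everything, without RH

No hypothesis is assumed.  Montgomery's pair correlation conjecture `N*(T, a) ~ g(a) T log T` for
every `a > 0`, `g(a) = (1/2π) ∫_0^a (1 - (sin πu / πu)²) du`, is equivalent to the lower bound
`N*(T, a) ≥ (g(a) - C exp(-ca) - o(1)) T log T` for every `a > 0`, with some constants `C` and
`c > 0`: an upper bound is not needed, the lower bound may lose an exponentially small amount, and it
is void for small `a` (`C` is arbitrary).  In particular such a lower bound implies that almost all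
zeros are simple and on the critical line.  The conjecture is also equivalent to the conjunction of
`almost all zeros are on the critical line` and the corresponding upper bound (for `N*(T, a)` plus
half the number of pairs with `γ = γ'`).  All this holds along every sequence of heights (more
generally along every countably generated filter that tends to infinity), and there is a version at
a single height: lower bounds up to `δ T log T` for the `a` in a compact interval `[A, B]` determine
`N*(T, a₀)` up to `ε T log T` and force all but `ε N(T)` of the zeros to be simple and on the line.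

Idea of the proof.  Let `O(u)` be the deviation of the normalised pair count (with the pairs
`γ = γ'`) from the prediction, extended to an odd function.  Mollified mean squares of `ζ` at and
to the left of the critical line (Selberg) give a bound for the fourth moment of the number of zeros
in intervals of length `1/log T`, weighted by `exp(κ |β - 1/2| log T)`.  Together with Montgomery's
theorem for the complex differences of the zeros this shows, for the test functions `ψ(R·)` as
`R → ∞`, that `∫ dt_ψR · O` is at most `C/R`; a lower bound for `O` and this information imply that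
`∫ |O| exp(cu)` is finite up to the scale `R`, that almost all zeros are simple and on the line, and
then Montgomery's theorem for small support holds for `O` exactly.  So `O` has a spectral gap and is
one-sided up to an exponentially small amount: its moments against a rapidly decreasing weight
vanish and it decays exponentially in the mean, hence `O = 0`.
-/

open Filter Topology

namespace Pool.Agent.Results.MP_f58427_nt.OneSidedNoRH

/-- the multiplicity of `s` as a zero of the Riemann zeta function -/
noncomputable def mult (s : ℂ) : ℕ := analyticOrderNatAt riemannZeta s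

/-- the nontrivial zeros of `ζ` with ordinate in `(0, T]` -/
def zeros (T : ℝ) : Set ℂ := {s : ℂ | riemannZeta s = 0 ∧ 0 < s.re ∧ s.re < 1 ∧ 0 < s.im ∧ s.im ≤ T}

/-- the nontrivial zeros of `ζ` whose ordinate `γ'` satisfies `0 < y - γ' ≤ w` -/
def below (y w : ℝ) : Set ℂ :=
  {s : ℂ | riemannZeta s = 0 ∧ 0 < s.re ∧ s.re < 1 ∧ 0 < y - s.im ∧ y - s.im ≤ w}

/-- `N*(T, a)`: the number of pairs `(γ, γ')` of ordinates of nontrivial zeros, counted with
multiplicity, with `0 < γ ≤ T` and `0 < γ - γ' ≤ 2πa / log T` -/
noncomputable def Nstar (T a : ℝ) : ℕ :=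
  ∑ᶠ s ∈ zeros T, ∑ᶠ s' ∈ below s.im (2 * Real.pi * a / Real.log T), mult s * mult s'

/-- the number of pairs of zeros with `0 < γ = γ' ≤ T`, counted with multiplicity -/
noncomputable def Neq (T : ℝ) : ℕ :=
  ∑ᶠ s ∈ zeros T, ∑ᶠ s' ∈ {s' : ℂ | s' ∈ zeros T ∧ s'.im = s.im}, mult s * mult s'

/-- the number of zeros with ordinate in `(0, T]`, with multiplicity -/
noncomputable def N (T : ℝ) : ℕ := ∑ᶠ s ∈ zeros T, mult s

/-- the number of zeros with ordinate in `(0, T]` off the critical line, with multiplicity -/
noncomputable def Noff (T : ℝ) : ℕ := ∑ᶠ s ∈ {s : ℂ | s ∈ zeros T ∧ s.re ≠ 1 / 2}, mult s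

/-- the number of simple zeros on the critical line with ordinate in `(0, T]` -/
noncomputable def Nsc (T : ℝ) : ℕ := {s : ℂ | s ∈ zeros T ∧ s.re = 1 / 2 ∧ mult s = 1}.ncard

/-- the sets of zeros that are summed over are finite -/
theorem finite_zeros (T y w : ℝ) : (zeros T).Finite ∧ (below y w).Finite :=
  ⟨W207.PR.Zs_finite T, W207.PR.Zw_finite y w⟩

/-- the prediction `g(a) = (1/2π) ∫_0^a (1 - (sin πu / πu)²) du` -/
noncomputable def g (a : ℝ) : ℝ := 1 / (2 * Real.pi) *
  ∫ u in (0 : ℝ)..a, (1 - (Real.sin (Real.pi * u) / (Real.pi * u)) ^ 2)

/-- the pair correlation conjecture, `T → ∞` along the filter `l` -/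
def PairCorrelation (l : Filter ℝ) : Prop := ∀ a : ℝ, 0 < a →
  Tendsto (fun T => (Nstar T a : ℝ) / (T * Real.log T)) l (𝓝 (g a))

/-- the lower bound, up to an exponentially small loss -/
def LowerBound (l : Filter ℝ) : Prop := ∃ C c : ℝ, 0 < c ∧ ∀ a : ℝ, 0 < a → ∀ ε : ℝ, 0 < ε →
  ∀ᶠ T in l, (g a - C * Real.exp (-(c * a)) - ε) * (T * Real.log T) ≤ Nstar T a

/-- the upper bound, up to an exponentially small loss -/
def UpperBound (l : Filter ℝ) : Prop := ∃ C c : ℝ, 0 < c ∧ ∀ a : ℝ, 0 < a → ∀ ε : ℝ, 0 < ε →
  ∀ᶠ T in l, (Nstar T a : ℝ) + Neq T / 2 ≤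
    (g a + 1 / (4 * Real.pi) + C * Real.exp (-(c * a)) + ε) * (T * Real.log T)

/-- almost all zeros are on the critical line -/
def AlmostAllCritical (l : Filter ℝ) : Prop := Tendsto (fun T => (Noff T : ℝ) / N T) l (𝓝 0)

/-- **The lower half of the pair correlation conjecture implies the conjecture, without RH.**

* Along every countably generated filter `l ≤ atTop` (for instance `l = atTop`, or a sequence of
  heights tending to infinity), the following are equivalent: the pair correlation asymptotics; the
  lower bound up to `C exp(-ca)`; almost all zeros are on the critical line and the upper bound up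
  to `C exp(-ca)` holds.  Each of them implies that almost all the zeros are simple and on the
  critical line.
* (Single heights.)  For all `a₀, A, ε > 0` there are `B` and `δ > 0` such that for every large `T`:
  if `N*(T, a) ≥ (g(a) - δ) T log T` for the `a` in `[A, B]`, then `N*(T, a₀) / (T log T)` is within
  `ε` of `g(a₀)`, and at least `(1 - ε) N(T)` zeros up to height `T` are simple and on the line. -/
theorem result :
    (∀ (l : Filter ℝ) [l.IsCountablyGenerated], l ≤ atTop →
      (PairCorrelation l ↔ LowerBound l) ∧
      (PairCorrelation l ↔ (AlmostAllCritical l ∧ UpperBound l)) ∧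
      (PairCorrelation l → Tendsto (fun T => (Nsc T : ℝ) / N T) l (𝓝 1))) ∧
    ∀ a₀ A ε : ℝ, 0 < a₀ → 0 < A → 0 < ε → ∃ B δ T₀ : ℝ, 0 < δ ∧ ∀ T : ℝ, T₀ ≤ T →
      (∀ a : ℝ, A ≤ a → a ≤ B → (g a - δ) * (T * Real.log T) ≤ Nstar T a) →
      |(Nstar T a₀ : ℝ) / (T * Real.log T) - g a₀| ≤ ε ∧ (1 - ε) * (N T : ℝ) ≤ Nsc T :=
  ⟨fun l _ hl => W207.PU.mainU l hl, W207.PU.mainS⟩

end Pool.Agent.Results.MP_f58427_nt.OneSidedNoRH
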