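import Pool.Agent.W207.SW.Main

/-!
# Pair correlation from one-sided bounds at sparse, arbitrarily large differences

No hypothesis is assumed.  Fix `C` and `δ, ε > 0`.  If almost all zeros are on the critical line and
if for arbitrarily large `R` - a sequence of `R` that may be as sparse as we like - one of the two
one-sided bounds holds for the `a` in the interval `[R, (1+δ)R]`,

`N*(T, a) ≥ (g(a) - C exp(-εR) - o(1)) T log T`, or
`N*(T, a) + N_=(T)/2 ≤ (g(a) + 1/(4π) + C exp(-εR) + o(1)) T log T`,

then the pair correlation conjecture `N*(T, a) ~ g(a) T log T` holds for every `a > 0`.  Nothing is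
assumed about the pairs whose normalised difference is outside the intervals `[R, (1+δ)R]`, in
particular nothing about close pairs.  The converse holds too, so this is an equivalence.

Idea of the proof.  Along a sequence of heights the deviation of the pair counts from the prediction
has a limit `O`; for few zeros off the line Montgomery's theorem for small supports shows that
`O(u) sin(πu/2)² / u` has, as an even function `E`, a spectral gap.  Test functions with compactly
supported transform that are exponentially small outside the interval (powers of `sin z / z` of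
order `R`, convolved with an indicator function) turn the one-sided bound into
`∫ |E| ≤ exp(-ε'R)` over the middle third of the interval, and then show that the transform `f` of
the part of `E` below `R` satisfies `|f(ξ)| ≤ exp(-κ R (Λ - |ξ|))` inside the gap `(-Λ, Λ)`.  This
entire function of exponential type `2πR` is small on a larger interval as well: by the
Phragmen-Lindelöf principle `log |f|` is at most `2πR |y| - κR U(z)`, `U` the Poisson extension of
the tent function, whose normal derivative is logarithmically large at the end points `±Λ`, and a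
weighted mean value over a small circle around a point beyond `Λ` gives `|f| ≤ exp(-cR)` there.  So
the gap is larger than `(-Λ, Λ)`; hence it is the whole line and `E = 0`.
-/

open Filter Topology

namespace Pool.Agent.Results.MP_f58427_nt.SparseOneSided

/-- the multiplicity of `s` as a zero of the Riemann zeta function -/
noncomputable def mult (s : ℂ) : ℕ := analyticOrderNatAt riemannZeta s

/-- the nontrivial zeros of `ζ` with ordinate in `(0, T]` -/
def zeros (T : ℝ) : Set ℂ := {s : ℂ | riemannZeta s = 0 ∧ 0 < s.re ∧ s.re < 1 ∧ 0 < s.im ∧ s.im ≤ T}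

/-- the nontrivial zeros of `ζ` whose ordinate `γ'` satisfies `0 < y - γ' ≤ w` -/
def below (y w : ℝ) : Set ℂ :=
  {s : ℂ | riemannZeta s = 0 ∧ 0 < s.re ∧ s.re < 1 ∧ 0 < y - s.im ∧ y - s.im ≤ w}

/-- `N*(T, a)`: the number of pairs `(γ, γ')` of ordinates of nontrivial zeros, counted with
multiplicity, with `0 < γ ≤ T` and `0 < γ - γ' ≤ 2πa / log T` -/
noncomputable def Nstar (T a : ℝ) : ℕ :=
  ∑ᶠ s ∈ zeros T, ∑ᶠ s' ∈ below s.im (2 * Real.pi * a / Real.log T), mult s * mult s'

/-- the number of pairs of zeros with `0 < γ = γ' ≤ T`, counted with multiplicity -/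
noncomputable def Neq (T : ℝ) : ℕ :=
  ∑ᶠ s ∈ zeros T, ∑ᶠ s' ∈ {s' : ℂ | s' ∈ zeros T ∧ s'.im = s.im}, mult s * mult s'

/-- the number of zeros with ordinate in `(0, T]`, with multiplicity -/
noncomputable def N (T : ℝ) : ℕ := ∑ᶠ s ∈ zeros T, mult s

/-- the number of zeros with ordinate in `(0, T]` off the critical line, with multiplicity -/
noncomputable def Noff (T : ℝ) : ℕ := ∑ᶠ s ∈ {s : ℂ | s ∈ zeros T ∧ s.re ≠ 1 / 2}, mult s

/-- the sets of zeros that are summed over are finite -/
theorem finite_zeros (T y w : ℝ) : (zeros T).Finite ∧ (below y w).Finite :=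
  ⟨W207.PR.Zs_finite T, W207.PR.Zw_finite y w⟩

/-- the prediction `g(a) = (1/2π) ∫_0^a (1 - (sin πu / πu)²) du` -/
noncomputable def g (a : ℝ) : ℝ := 1 / (2 * Real.pi) *
  ∫ u in (0 : ℝ)..a, (1 - (Real.sin (Real.pi * u) / (Real.pi * u)) ^ 2)

/-- the pair correlation conjecture, `T → ∞` along the filter `l` -/
def PairCorrelation (l : Filter ℝ) : Prop := ∀ a : ℝ, 0 < a →
  Tendsto (fun T => (Nstar T a : ℝ) / (T * Real.log T)) l (𝓝 (g a))

/-- almost all zeros are on the critical line -/
def AlmostAllCritical (l : Filter ℝ) : Prop := Tendsto (fun T => (Noff T : ℝ) / N T) l (𝓝 0)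

/-- the lower bound for the `a` in `[R, (1+δ)R]`, up to a loss `C exp(-εR)` -/
def LowerAt (l : Filter ℝ) (δ ε C R : ℝ) : Prop := ∀ a : ℝ, R ≤ a → a ≤ (1 + δ) * R →
  ∀ η : ℝ, 0 < η → ∀ᶠ T in l,
    (g a - C * Real.exp (-(ε * R)) - η) * (T * Real.log T) ≤ Nstar T a

/-- the upper bound for the `a` in `[R, (1+δ)R]`, up to a loss `C exp(-εR)` -/
def UpperAt (l : Filter ℝ) (δ ε C R : ℝ) : Prop := ∀ a : ℝ, R ≤ a → a ≤ (1 + δ) * R →
  ∀ η : ℝ, 0 < η → ∀ᶠ T in l, (Nstar T a : ℝ) + Neq T / 2 ≤
    (g a + 1 / (4 * Real.pi) + C * Real.exp (-(ε * R)) + η) * (T * Real.log T)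

/-- **Pair correlation from one-sided bounds on sparse intervals.**  Along every countably generated
filter `l ≤ atTop` (for instance `l = atTop`, or a sequence of heights tending to infinity) the
following are equivalent: the pair correlation asymptotics for all `a > 0`; almost all zeros are on
the critical line, and there are `C` and `δ, ε > 0` such that for arbitrarily large `R` the lower
bound holds for all `a ∈ [R, (1+δ)R]` or the upper bound holds for all `a ∈ [R, (1+δ)R]`. -/
theorem result (l : Filter ℝ) [l.IsCountablyGenerated] (hl : l ≤ atTop) :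
    PairCorrelation l ↔ (AlmostAllCritical l ∧ ∃ C δ ε : ℝ, 0 < δ ∧ 0 < ε ∧
      ∀ A : ℝ, ∃ R : ℝ, A ≤ R ∧ (LowerAt l δ ε C R ∨ UpperAt l δ ε C R)) :=
  W207.SW.mainC l hl

end Pool.Agent.Results.MP_f58427_nt.SparseOneSided
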