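import Pool.Agent.W192.PP.Pair2

namespace Pool.Agent.Results.MP_f58427_nt.UnconditionalPairs

/-- multiplicity of `s` as a zero of the Riemann zeta function (order of vanishing at `s`) -/
noncomputable def zmult (s : ℂ) : ℕ := analyticOrderNatAt riemannZeta s

/-- the nontrivial zeros of `ζ` -/
def ZZ : Set ℂ := {s : ℂ | riemannZeta s = 0 ∧ 0 < s.re ∧ s.re < 1}

/-- `N*(T, a)` as in the problem: the number of ordered pairs `(γ, γ')` of ordinates of nontrivial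
zeros, counted with multiplicity, with `0 < γ ≤ T` and `0 < γ - γ' ≤ 2πa / log T` -/
noncomputable def Nstar (T a : ℝ) : ℕ :=
  ∑ᶠ p ∈ {p : ℂ × ℂ | p.1 ∈ ZZ ∧ p.2 ∈ ZZ ∧ 0 < p.1.im ∧ p.1.im ≤ T ∧
    0 < p.1.im - p.2.im ∧ p.1.im - p.2.im ≤ 2 * Real.pi * a / Real.log T}, zmult p.1 * zmult p.2

/-- the number of zeros with ordinate in `(0, T]`, counted with multiplicity, that are off the
critical line or multiple -/
noncomputable def Nbad (T : ℝ) : ℕ :=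
  ∑ᶠ s ∈ {s : ℂ | s ∈ ZZ ∧ 0 < s.im ∧ s.im ≤ T ∧ (s.re ≠ 1 / 2 ∨ deriv riemannZeta s = 0)}, zmult s

/-- the number of ordered pairs of ordinates in `[A, B]` with `0 < γ - γ' ≤ d`, counted with
multiplicity -/
noncomputable def Npair (A B d : ℝ) : ℕ :=
  ∑ᶠ p ∈ {p : ℂ × ℂ | p.1 ∈ ZZ ∧ p.2 ∈ ZZ ∧ A ≤ p.2.im ∧ p.1.im ≤ B ∧
    0 < p.1.im - p.2.im ∧ p.1.im - p.2.im ≤ d}, zmult p.1 * zmult p.2

/-- the number of zeros with ordinate in `[A, B]`, counted with multiplicity, that are off the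
critical line or multiple -/
noncomputable def Nbadw (A B : ℝ) : ℕ :=
  ∑ᶠ s ∈ {s : ℂ | s ∈ ZZ ∧ A ≤ s.im ∧ s.im ≤ B ∧ (s.re ≠ 1 / 2 ∨ deriv riemannZeta s = 0)}, zmult s

/-- Unconditionally: (1) for every `a > 2/3` there is `κ > 0` with
`N*(T, a) + Nbad(T) ≥ κ T log T` for all large `T`; so if almost all zeros are simple and on the
critical line, then `N*(T, a) ≫ T log T` for every `a > 2/3`. (2) The same holds in every short
interval: if `0 < θ ≤ 1` and `a > 2/(2+θ)` there is `κ > 0` such that for all large `T` every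
interval `[t0, t0 + H]` inside `[T, 2T]` with `H ≥ T^θ` satisfies
`Npair + Nbadw ≥ κ H log T`, at distance `d = 2πa / log T`. -/
theorem result :
    (∀ a : ℝ, 2 / 3 < a → ∃ κ T0 : ℝ, 0 < κ ∧ ∀ T : ℝ, T0 ≤ T →
      κ * T * Real.log T ≤ (Nstar T a : ℝ) + (Nbad T : ℝ)) ∧
    (∀ θ a : ℝ, 0 < θ → θ ≤ 1 → 2 / (2 + θ) < a →
      ∃ κ T0 : ℝ, 0 < κ ∧ ∀ T t0 H : ℝ, T0 ≤ T → T ≤ t0 → t0 + H ≤ 2 * T → T ^ θ ≤ H →
        κ * H * Real.log T ≤
          (Npair t0 (t0 + H) (2 * Real.pi * a / Real.log T) : ℝ) + (Nbadw t0 (t0 + H) : ℝ)) :=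
  ⟨fun a h => Pool.Agent.W192.PP.pairs_all a h,
    fun θ a h0 h1 h2 => Pool.Agent.W192.PP.pairs_window θ a h0 h1 h2⟩

end Pool.Agent.Results.MP_f58427_nt.UnconditionalPairs
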